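import Mathlib
import Pool.Agent.X94.Lap

namespace Pool.Agent.Results.MP_885c89_an.UnboundedAbove

open MeasureTheory Filter Topology Laplacian InnerProductSpace
open scoped ContDiff ENNReal
open Pool.Agent.X94.Lap

/-- The operator `-Δ` on functions on `ℝⁿ`. -/
noncomputable def negLap {n : ℕ} (φ : EuclideanSpace ℝ (Fin n) → ℝ) :
    EuclideanSpace ℝ (Fin n) → ℝ := fun x => -(Δ φ x)

/-- `u` is a (distributional, locally integrable) solution of `(-Δ)^m u = V e^{2mu}` in `ℝ^{2m}`,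
with `V` essentially bounded and `e^{2mu}` integrable. -/
def IsSolution (m : ℕ) (V u : EuclideanSpace ℝ (Fin (2 * m)) → ℝ) : Prop :=
  LocallyIntegrable u ∧ MemLp V ∞ ∧ Integrable (fun x => Real.exp (2 * m * u x)) ∧
  ∀ φ : EuclideanSpace ℝ (Fin (2 * m)) → ℝ, ContDiff ℝ ∞ φ → HasCompactSupport φ →
    ∫ x, u x * (negLap^[m] φ) x = ∫ x, V x * Real.exp (2 * m * u x) * φ x

/-- The assertion of Q1: for every `m ≥ 2` all solutions are essentially bounded above. -/
def AlwaysBoundedAbove : Prop :=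
  ∀ m : ℕ, 2 ≤ m → ∀ V u : EuclideanSpace ℝ (Fin (2 * m)) → ℝ, IsSolution m V u →
    ∃ C : ℝ, ∀ᵐ x, u x ≤ C

section general
variable {n : ℕ}

lemma smooth_negLap {φ : EuclideanSpace ℝ (Fin n) → ℝ} (hφ : ContDiff ℝ ∞ φ) :
    ContDiff ℝ ∞ (negLap φ) := (contDiff_laplacian hφ).neg

lemma smooth_iter (k : ℕ) {φ : EuclideanSpace ℝ (Fin n) → ℝ} (hφ : ContDiff ℝ ∞ φ) :
    ContDiff ℝ ∞ (negLap^[k] φ) := by
  induction k with
  | zero => exact hφ
  | succ k ih => rw [Function.iterate_succ_apply']; exact smooth_negLap ih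

lemma two_le {φ : EuclideanSpace ℝ (Fin n) → ℝ} (hφ : ContDiff ℝ ∞ φ) : ContDiff ℝ 2 φ :=
  hφ.of_le (WithTop.coe_le_coe.mpr le_top)

lemma compact_negLap {φ : EuclideanSpace ℝ (Fin n) → ℝ} (hφ : ContDiff ℝ ∞ φ)
    (hc : HasCompactSupport φ) : HasCompactSupport (negLap φ) := by
  have := hasCompactSupport_laplacian (two_le hφ) hc
  exact this.neg

lemma green_iter (m : ℕ) : ∀ {u φ : EuclideanSpace ℝ (Fin n) → ℝ}, ContDiff ℝ ∞ u →
    ContDiff ℝ ∞ φ → HasCompactSupport φ →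
    ∫ x, u x * (negLap^[m] φ) x = ∫ x, (negLap^[m] u) x * φ x := by
  induction m with
  | zero => intro u φ _ _ _; simp
  | succ m ih =>
    intro u φ hu hφ hc
    rw [Function.iterate_succ_apply, ih hu (smooth_negLap hφ) (compact_negLap hφ hc)]
    rw [Function.iterate_succ_apply' negLap m u]
    have h := green (two_le (smooth_iter m hu)) (two_le hφ) hc
    unfold negLap at h ⊢
    simp only [mul_neg, neg_mul, integral_neg]
    rw [h]

lemma negLap_add {u v : EuclideanSpace ℝ (Fin n) → ℝ} (hu : ContDiff ℝ ∞ u)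
    (hv : ContDiff ℝ ∞ v) : negLap (u + v) = negLap u + negLap v := by
  funext x
  have := (two_le hu).contDiffAt.laplacian_add (two_le hv).contDiffAt (x := x)
  unfold negLap
  rw [this]
  simp only [Pi.add_apply]
  ring

lemma iter_add (k : ℕ) {u v : EuclideanSpace ℝ (Fin n) → ℝ} (hu : ContDiff ℝ ∞ u)
    (hv : ContDiff ℝ ∞ v) : negLap^[k] (u + v) = negLap^[k] u + negLap^[k] v := by
  induction k with
  | zero => rfl
  | succ k ih =>
    rw [Function.iterate_succ_apply', Function.iterate_succ_apply', Function.iterate_succ_apply',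
      ih, negLap_add (smooth_iter k hu) (smooth_iter k hv)]

end general

section radial

/-- The radial form of the Laplacian in dimension `6` in the variable `s = |x|^2`. -/
noncomputable def Lop (h : ℝ → ℝ) : ℝ → ℝ := fun s => 4 * s * deriv (deriv h) s + 12 * deriv h s

lemma smooth_deriv {h : ℝ → ℝ} (hh : ContDiff ℝ ∞ h) : ContDiff ℝ ∞ (deriv h) :=
  (contDiff_infty_iff_deriv.mp hh).2

lemma smooth_Lop {h : ℝ → ℝ} (hh : ContDiff ℝ ∞ h) : ContDiff ℝ ∞ (Lop h) := by
  have h1 := smooth_deriv hh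
  have h2 := smooth_deriv h1
  exact ((contDiff_const.mul contDiff_id).mul h2).add (contDiff_const.mul h1)

lemma lap_radial {h : ℝ → ℝ} (hh : ContDiff ℝ ∞ h) :
    negLap (fun x : EuclideanSpace ℝ (Fin (2 * 3)) => h (‖x‖ ^ 2)) =
      fun x => -(Lop h (‖x‖ ^ 2)) := by
  have h1 := smooth_deriv hh
  funext x
  have key := laplacian_comp_normSq (E := EuclideanSpace ℝ (Fin (2 * 3))) (U := h)
    (U' := deriv h) (U'' := deriv (deriv h)) 0 x
    (fun s => (hh.differentiable (by simp) s).hasDerivAt)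
    (fun s => (h1.differentiable (by simp) s).hasDerivAt)
  simp only [sub_zero] at key
  unfold negLap Lop
  rw [key, finrank_euclideanSpace_fin]
  push_cast
  ring

lemma Lop_eqOn {h g : ℝ → ℝ} {U : Set ℝ} (hU : IsOpen U) (hg : Set.EqOn h g U) :
    Set.EqOn (Lop h) (Lop g) U := by
  intro s hs
  have h0 : h =ᶠ[𝓝 s] g := by
    filter_upwards [hU.mem_nhds hs] with t ht using hg ht
  have h1 := h0.deriv
  have h2 := h1.deriv
  unfold Lop
  rw [h1.eq_of_nhds, h2.eq_of_nhds]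

lemma Lop_of {f f' f'' : ℝ → ℝ} (h1 : ∀ s, 0 < s → HasDerivAt f (f' s) s)
    (h2 : ∀ s, 0 < s → HasDerivAt f' (f'' s) s) :
    Set.EqOn (Lop f) (fun s => 4 * s * f'' s + 12 * f' s) (Set.Ioi 0) := by
  intro s hs
  have h3 : deriv f =ᶠ[𝓝 s] f' := by
    filter_upwards [isOpen_Ioi.mem_nhds hs] with t ht using (h1 t ht).deriv
  unfold Lop
  simp only
  rw [h3.deriv_eq, (h2 s hs).deriv, h3.eq_of_nhds]

lemma Lop_log : Set.EqOn (Lop Real.log) (fun s => 8 * s⁻¹) (Set.Ioi 0) := by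
  have := Lop_of (f := Real.log) (f' := fun s => s⁻¹) (f'' := fun s => -(s ^ 2)⁻¹)
    (fun s hs => Real.hasDerivAt_log hs.ne') (fun s hs => hasDerivAt_inv hs.ne')
  intro s hs
  rw [this hs]
  have : s ≠ 0 := (Set.mem_Ioi.mp hs).ne'
  field_simp
  ring

lemma Lop_inv : Set.EqOn (Lop (fun s => 8 * s⁻¹)) (fun s => -32 * (s ^ 2)⁻¹) (Set.Ioi 0) := by
  have := Lop_of (f := fun s => 8 * s⁻¹) (f' := fun s => -8 * (s ^ 2)⁻¹)
    (f'' := fun s => 16 * (s ^ 3)⁻¹)
    (fun s hs => by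
      exact ((hasDerivAt_inv hs.ne').const_mul (8 : ℝ)).congr_deriv (by ring))
    (fun s hs => by
      have h1 : HasDerivAt (fun s : ℝ => (s ^ 2)⁻¹) (-(2 * s) / (s ^ 2) ^ 2) s := by
        have := (hasDerivAt_pow 2 s).fun_inv (pow_ne_zero 2 hs.ne')
        simpa using this
      have hs0 := hs.ne'
      exact (h1.const_mul (-8 : ℝ)).congr_deriv (by field_simp; ring))
  intro s hs
  rw [this hs]
  have : s ≠ 0 := (Set.mem_Ioi.mp hs).ne'
  field_simp
  ring

lemma Lop_inv2 : Set.EqOn (Lop (fun s => -32 * (s ^ 2)⁻¹)) (fun _ => 0) (Set.Ioi 0) := by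
  have := Lop_of (f := fun s => -32 * (s ^ 2)⁻¹) (f' := fun s => 64 * (s ^ 3)⁻¹)
    (f'' := fun s => -192 * (s ^ 4)⁻¹)
    (fun s hs => by
      have h1 : HasDerivAt (fun s : ℝ => (s ^ 2)⁻¹) (-(2 * s) / (s ^ 2) ^ 2) s := by
        have := (hasDerivAt_pow 2 s).fun_inv (pow_ne_zero 2 hs.ne')
        simpa using this
      have hs0 := hs.ne'
      exact (h1.const_mul (-32 : ℝ)).congr_deriv (by field_simp; ring))
    (fun s hs => by
      have h1 : HasDerivAt (fun s : ℝ => (s ^ 3)⁻¹) (-(3 * s ^ 2) / (s ^ 3) ^ 2) s := by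
        have := (hasDerivAt_pow 3 s).fun_inv (pow_ne_zero 3 hs.ne')
        simpa using this
      have hs0 := hs.ne'
      exact (h1.const_mul (64 : ℝ)).congr_deriv (by field_simp; ring))
  intro s hs
  rw [this hs]
  have : s ≠ 0 := (Set.mem_Ioi.mp hs).ne'
  field_simp
  ring

/-- A smooth function equal to `log s` for `s ≥ 2` and to `0` for `s ≤ 1`. -/
noncomputable def hh (s : ℝ) : ℝ := Real.smoothTransition (s - 1) * Real.log s

lemma hh_zero {s : ℝ} (hs : s ≤ 1) : hh s = 0 := by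
  unfold hh
  rw [Real.smoothTransition.zero_of_nonpos (by linarith), zero_mul]

lemma hh_log {s : ℝ} (hs : 2 ≤ s) : hh s = Real.log s := by
  unfold hh
  rw [Real.smoothTransition.one_of_one_le (by linarith), one_mul]

lemma smooth_hh : ContDiff ℝ ∞ hh := by
  rw [contDiff_iff_contDiffAt]
  intro s
  rcases lt_or_ge s 1 with h | h
  · have : hh =ᶠ[𝓝 s] fun _ => 0 := by
      filter_upwards [isOpen_Iio.mem_nhds h] with t ht using hh_zero (le_of_lt ht)
    exact contDiffAt_const.congr_of_eventuallyEq this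
  · unfold hh
    refine ContDiffAt.mul ?_ (Real.contDiffAt_log.mpr (by linarith))
    exact (Real.smoothTransition.contDiff.comp (contDiff_id.sub contDiff_const)).contDiffAt

lemma hh_le {s : ℝ} (hs : 0 ≤ s) : hh s ≤ Real.log (1 + s) := by
  rcases le_or_gt s 1 with h | h
  · rw [hh_zero h]; exact Real.log_nonneg (by linarith)
  · have h1 : 0 ≤ Real.log s := Real.log_nonneg h.le
    have h2 := Real.smoothTransition.le_one (s - 1)
    calc hh s ≤ 1 * Real.log s := mul_le_mul_of_nonneg_right h2 h1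
      _ = Real.log s := one_mul _
      _ ≤ Real.log (1 + s) := Real.log_le_log (by linarith) (by linarith)

lemma Lop3_zero {s : ℝ} (hs : 2 < s) : Lop (Lop (Lop hh)) s = 0 := by
  have hU : IsOpen (Set.Ioi (2 : ℝ)) := isOpen_Ioi
  have hsub : ∀ t ∈ Set.Ioi (2 : ℝ), t ∈ Set.Ioi (0 : ℝ) := fun t ht =>
    lt_trans (by norm_num) (Set.mem_Ioi.mp ht)
  have e1 : Set.EqOn (Lop hh) (fun s => 8 * s⁻¹) (Set.Ioi 2) := by
    intro t ht
    rw [Lop_eqOn hU (fun t ht => hh_log (le_of_lt ht)) ht]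
    exact Lop_log (hsub t ht)
  have e2 : Set.EqOn (Lop (Lop hh)) (fun s => -32 * (s ^ 2)⁻¹) (Set.Ioi 2) := by
    intro t ht
    rw [Lop_eqOn hU e1 ht]
    exact Lop_inv (hsub t ht)
  rw [Lop_eqOn hU e2 hs]
  exact Lop_inv2 (hsub s hs)

end radial

/-- The polynomial `-(x₀² + ... + x₄²)(1 + x₅²)`. -/
noncomputable def pp : MvPolynomial (Fin (2 * 3)) ℝ :=
  -((MvPolynomial.X 0 ^ 2 + MvPolynomial.X 1 ^ 2 + MvPolynomial.X 2 ^ 2 + MvPolynomial.X 3 ^ 2 +
    MvPolynomial.X 4 ^ 2) * (1 + MvPolynomial.X 5 ^ 2))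

lemma pd_nat (i : Fin (2 * 3)) (k : ℕ) :
    MvPolynomial.pderiv i ((k : ℕ) : MvPolynomial (Fin (2 * 3)) ℝ) = 0 :=
  (MvPolynomial.pderiv i).map_natCast k

lemma lap_pp : lap (lap (lap pp)) = 0 := by
  have e2 : ∀ i : Fin (2 * 3), MvPolynomial.pderiv i (2 : MvPolynomial (Fin (2 * 3)) ℝ) = 0 :=
    fun i => by exact_mod_cast pd_nat i 2
  have e10 : ∀ i : Fin (2 * 3), MvPolynomial.pderiv i (10 : MvPolynomial (Fin (2 * 3)) ℝ) = 0 :=
    fun i => by exact_mod_cast pd_nat i 10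
  have h1 : lap pp = -(10 + 10 * MvPolynomial.X 5 ^ 2 + 2 * (MvPolynomial.X 0 ^ 2 +
      MvPolynomial.X 1 ^ 2 + MvPolynomial.X 2 ^ 2 + MvPolynomial.X 3 ^ 2 +
      MvPolynomial.X 4 ^ 2)) := by
    unfold lap pp
    simp [Fin.sum_univ_succ, MvPolynomial.pderiv_X, Pi.single_apply, e2]
    ring
  have h2 : lap (lap pp) = -(((40 : ℕ) : MvPolynomial (Fin (2 * 3)) ℝ)) := by
    rw [h1]
    unfold lap
    simp [Fin.sum_univ_succ, MvPolynomial.pderiv_X, Pi.single_apply, e2, e10]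
    ring
  rw [h2]
  unfold lap
  simp only [map_neg, pd_nat, neg_zero, map_zero, Finset.sum_const_zero]

/-- Euclidean space of dimension `6`. -/
abbrev E6 := EuclideanSpace ℝ (Fin (2 * 3))

/-- The polynomial part of the solution. -/
noncomputable def P : E6 → ℝ := ev pp

/-- The logarithmic part of the solution. -/
noncomputable def v : E6 → ℝ := fun x => 1 / 6 * hh (‖x‖ ^ 2)

/-- The solution. -/
noncomputable def u : E6 → ℝ := P + v

/-- The coefficient function. -/
noncomputable def V : E6 → ℝ := fun x => (negLap^[3] v) x * Real.exp (-(6 * u x))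

lemma P_eq (x : E6) : P x =
    -((x 0 ^ 2 + x 1 ^ 2 + x 2 ^ 2 + x 3 ^ 2 + x 4 ^ 2) * (1 + x 5 ^ 2)) := by
  simp [P, ev, pp]

lemma smooth_P : ContDiff ℝ ∞ P := contDiff_ev pp

lemma smooth_comp {h : ℝ → ℝ} (hs : ContDiff ℝ ∞ h) :
    ContDiff ℝ ∞ (fun x : E6 => h (‖x‖ ^ 2)) := hs.comp (contDiff_norm_sq ℝ)

lemma smooth_v : ContDiff ℝ ∞ v := contDiff_const.mul (smooth_comp smooth_hh)

lemma smooth_u : ContDiff ℝ ∞ u := smooth_P.add smooth_v

lemma negLap_ev (p : MvPolynomial (Fin (2 * 3)) ℝ) : negLap (ev p) = ev (-(lap p)) := by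
  funext x
  unfold negLap
  rw [laplacian_ev]
  simp [ev]

lemma lap_neg (p : MvPolynomial (Fin (2 * 3)) ℝ) : lap (-p) = -(lap p) := by
  unfold lap
  simp

lemma iter_P : negLap^[3] P = 0 := by
  have : negLap^[3] P = negLap (negLap (negLap P)) := rfl
  rw [this]
  unfold P
  rw [negLap_ev, negLap_ev, negLap_ev, lap_neg, lap_neg, lap_neg, lap_pp]
  funext x
  simp [ev]

lemma negLap_const_mul (c : ℝ) {f : E6 → ℝ} (hf : ContDiff ℝ ∞ f) :
    negLap (fun x => c * f x) = fun x => c * negLap f x := by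
  funext x
  have := laplacian_smul (E := E6) c (two_le hf).contDiffAt (x := x)
  unfold negLap
  have e : (c • f) = fun x => c * f x := by funext x; simp
  rw [e] at this
  rw [this]
  simp

lemma iter_v : negLap^[3] v = fun x => -(1 / 6) * Lop (Lop (Lop hh)) (‖x‖ ^ 2) := by
  have h1 := smooth_Lop smooth_hh
  have h2 := smooth_Lop h1
  have e1 : negLap v = fun x => (-(1 / 6)) * Lop hh (‖x‖ ^ 2) := by
    unfold v
    rw [negLap_const_mul _ (smooth_comp smooth_hh), lap_radial smooth_hh]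
    funext x; ring
  have e2 : negLap (negLap v) = fun x => (1 / 6) * Lop (Lop hh) (‖x‖ ^ 2) := by
    rw [e1, negLap_const_mul _ (smooth_comp h1), lap_radial h1]
    funext x; ring
  have : negLap^[3] v = negLap (negLap (negLap v)) := rfl
  rw [this, e2, negLap_const_mul _ (smooth_comp h2), lap_radial h2]
  funext x; ring

lemma compact_V : HasCompactSupport V := by
  refine HasCompactSupport.of_support_subset_isCompact (isCompact_closedBall (0 : E6) 2) ?_
  intro x hx
  by_contra h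
  apply hx
  have h1 : 2 < ‖x‖ ^ 2 := by
    rw [Metric.mem_closedBall, dist_zero_right, not_le] at h
    nlinarith
  unfold V
  rw [iter_v]
  simp only
  rw [Lop3_zero h1]
  simp

lemma continuous_V : Continuous V := by
  unfold V
  exact (smooth_iter 3 smooth_v).continuous.mul
    (Real.continuous_exp.comp (smooth_u.continuous.const_mul 6).neg)

lemma V_mul (x : E6) : V x * Real.exp (6 * u x) = (negLap^[3] u) x := by
  have : negLap^[3] u = negLap^[3] P + negLap^[3] v := iter_add 3 smooth_P smooth_v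
  rw [this, iter_P, zero_add]
  unfold V
  rw [mul_assoc, ← Real.exp_add]
  simp

/-! ### Integrability of `e^{6u}` -/

lemma int_one : Integrable (fun t : ℝ => |t| ^ (-(9 / 10) : ℝ) * Real.exp (-4 * |t| ^ 2)) := by
  have h0 : IntegrableOn (fun t : ℝ => t ^ (-(9 / 10) : ℝ) * Real.exp (-4 * t ^ 2))
      (Set.Ioi 0) := integrableOn_rpow_mul_exp_neg_mul_sq (by norm_num) (by norm_num)
  have hf : IntegrableOn (fun t : ℝ => |t| ^ (-(9 / 10) : ℝ) * Real.exp (-4 * |t| ^ 2))
      (Set.Ioi 0) := by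
    refine h0.congr_fun (fun t ht => ?_) measurableSet_Ioi
    simp only
    rw [abs_of_pos (Set.mem_Ioi.mp ht)]
  have int_Iic : IntegrableOn (fun t : ℝ => |t| ^ (-(9 / 10) : ℝ) * Real.exp (-4 * |t| ^ 2))
      (Set.Iic 0) := by
    rw [← Measure.map_neg_eq_self (volume : Measure ℝ)]
    let m : MeasurableEmbedding fun x : ℝ => -x := (Homeomorph.neg ℝ).measurableEmbedding
    rw [m.integrableOn_map_iff]
    simp_rw [Function.comp_def, abs_neg, Set.neg_preimage, Set.neg_Iic, neg_zero]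
    exact Iff.mpr integrableOn_Ici_iff_integrableOn_Ioi hf
  rw [← integrableOn_univ, ← Set.Iic_union_Ioi (a := (0 : ℝ)), integrableOn_union]
  exact ⟨int_Iic, hf⟩

lemma int_two : Integrable (fun t : ℝ => (1 + t ^ 2) ^ (-(5 / 4) : ℝ)) := by
  have := integrable_rpow_neg_one_add_norm_sq (E := ℝ) (μ := volume) (r := 5 / 2) (by
    rw [Module.finrank_self]; norm_num)
  refine this.congr (Eventually.of_forall fun t => ?_)
  simp only [Real.norm_eq_abs, sq_abs]
  norm_num

/-- The factors of the majorant. -/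
noncomputable def fac (i : Fin (2 * 3)) (t : ℝ) : ℝ :=
  if i = 5 then (1 + t ^ 2) ^ (-(5 / 4) : ℝ) else |t| ^ (-(9 / 10) : ℝ) * Real.exp (-4 * |t| ^ 2)

lemma int_fac (i : Fin (2 * 3)) : Integrable (fac i) := by
  unfold fac
  by_cases h : i = 5
  · simp only [h, if_true]; exact int_two
  · simp only [h, if_false]; exact int_one

lemma exp_le_rpow {y : ℝ} (hy : 0 < y) : Real.exp (-y) ≤ y ^ (-(9 / 20) : ℝ) := by
  rw [Real.rpow_def_of_pos hy, Real.exp_le_exp]
  have := Real.log_le_sub_one_of_pos hy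
  nlinarith

lemma one_coord {t q : ℝ} (ht : t ≠ 0) (hq : 1 ≤ q) :
    Real.exp (-(5 * t ^ 2 * q)) ≤
      |t| ^ (-(9 / 10) : ℝ) * Real.exp (-4 * |t| ^ 2) * q ^ (-(9 / 20) : ℝ) := by
  have ht2 : 0 < t ^ 2 := by positivity
  have h1 := exp_le_rpow (y := t ^ 2 * q) (by positivity)
  have h2 : (t ^ 2 * q) ^ (-(9 / 20) : ℝ) = |t| ^ (-(9 / 10) : ℝ) * q ^ (-(9 / 20) : ℝ) := by
    rw [Real.mul_rpow (by positivity) (by linarith), ← sq_abs t, ← Real.rpow_natCast,
      ← Real.rpow_mul (abs_nonneg t)]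
    norm_num
  rw [h2] at h1
  have h3 : Real.exp (-(5 * t ^ 2 * q)) = Real.exp (-(t ^ 2 * q)) * Real.exp (-(4 * t ^ 2 * q)) := by
    rw [← Real.exp_add]; congr 1; ring
  have h4 : Real.exp (-(4 * t ^ 2 * q)) ≤ Real.exp (-4 * |t| ^ 2) := by
    rw [Real.exp_le_exp, sq_abs]; nlinarith
  rw [h3]
  calc Real.exp (-(t ^ 2 * q)) * Real.exp (-(4 * t ^ 2 * q))
      ≤ (|t| ^ (-(9 / 10) : ℝ) * q ^ (-(9 / 20) : ℝ)) * Real.exp (-4 * |t| ^ 2) :=
        mul_le_mul h1 h4 (Real.exp_pos _).le (by positivity)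
    _ = _ := by ring

lemma exp_u_le {x : E6} (hx : ∀ i, x i ≠ 0) :
    Real.exp (6 * u x) ≤ ∏ i, fac i (x i) := by
  set q := 1 + x 5 ^ 2 with hq
  have hq1 : 1 ≤ q := by nlinarith [sq_nonneg (x 5)]
  set r := x 0 ^ 2 + x 1 ^ 2 + x 2 ^ 2 + x 3 ^ 2 + x 4 ^ 2 with hr
  have hr0 : 0 ≤ r := by positivity
  have hn : ‖x‖ ^ 2 = r + x 5 ^ 2 := by
    rw [EuclideanSpace.norm_sq_eq]
    simp only [Real.norm_eq_abs, sq_abs]
    rw [hr]
    simp [Fin.sum_univ_succ]
    ring
  have hu : 6 * u x = -(6 * r * q) + hh (‖x‖ ^ 2) := by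
    have : u x = P x + v x := rfl
    rw [this, P_eq, ← hr, ← hq]
    unfold v
    ring
  have h1 : Real.exp (6 * u x) ≤ q * Real.exp (-(5 * r * q)) := by
    rw [hu, Real.exp_add]
    have h2 : Real.exp (hh (‖x‖ ^ 2)) ≤ 1 + ‖x‖ ^ 2 := by
      rw [← Real.exp_log (show (0 : ℝ) < 1 + ‖x‖ ^ 2 by positivity), Real.exp_le_exp]
      exact hh_le (by positivity)
    have h3 : 1 + ‖x‖ ^ 2 ≤ q * Real.exp (r * q) := by
      have h4 : 1 + r * q ≤ Real.exp (r * q) := by linarith [Real.add_one_le_exp (r * q)]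
      have h5 : 1 + r ≤ 1 + r * q := by nlinarith
      rw [hn]
      calc 1 + (r + x 5 ^ 2) ≤ q * (1 + r) := by rw [hq]; nlinarith [sq_nonneg (x 5)]
        _ ≤ q * Real.exp (r * q) := mul_le_mul_of_nonneg_left (h5.trans h4) (by linarith)
    calc Real.exp (-(6 * r * q)) * Real.exp (hh (‖x‖ ^ 2))
        ≤ Real.exp (-(6 * r * q)) * (q * Real.exp (r * q)) :=
          mul_le_mul_of_nonneg_left (h2.trans h3) (Real.exp_pos _).le
      _ = q * (Real.exp (-(6 * r * q)) * Real.exp (r * q)) := by ring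
      _ = q * Real.exp (-(5 * r * q)) := by rw [← Real.exp_add]; congr 2; ring
  have c0 := one_coord (hx 0) hq1
  have c1 := one_coord (hx 1) hq1
  have c2 := one_coord (hx 2) hq1
  have c3 := one_coord (hx 3) hq1
  have c4 := one_coord (hx 4) hq1
  have hprod : Real.exp (-(5 * r * q)) = Real.exp (-(5 * x 0 ^ 2 * q)) *
      Real.exp (-(5 * x 1 ^ 2 * q)) * Real.exp (-(5 * x 2 ^ 2 * q)) *
      Real.exp (-(5 * x 3 ^ 2 * q)) * Real.exp (-(5 * x 4 ^ 2 * q)) := by
    rw [← Real.exp_add, ← Real.exp_add, ← Real.exp_add, ← Real.exp_add, hr]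
    congr 1; ring
  have hqpow : q * (q ^ (-(9 / 20) : ℝ)) ^ 5 = q ^ (-(5 / 4) : ℝ) := by
    have hq0 : 0 < q := by linarith
    rw [← Real.rpow_natCast (q ^ (-(9 / 20) : ℝ)) 5, ← Real.rpow_mul hq0.le]
    nth_rewrite 1 [← Real.rpow_one q]
    rw [← Real.rpow_add hq0]
    norm_num
  refine h1.trans ?_
  rw [hprod]
  have hfac : ∏ i, fac i (x i) =
      (|x 0| ^ (-(9 / 10) : ℝ) * Real.exp (-4 * |x 0| ^ 2)) *
      (|x 1| ^ (-(9 / 10) : ℝ) * Real.exp (-4 * |x 1| ^ 2)) *
      (|x 2| ^ (-(9 / 10) : ℝ) * Real.exp (-4 * |x 2| ^ 2)) *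
      (|x 3| ^ (-(9 / 10) : ℝ) * Real.exp (-4 * |x 3| ^ 2)) *
      (|x 4| ^ (-(9 / 10) : ℝ) * Real.exp (-4 * |x 4| ^ 2)) * q ^ (-(5 / 4) : ℝ) := by
    rw [show (∏ i, fac i (x i)) = fac 0 (x 0) * fac 1 (x 1) * fac 2 (x 2) * fac 3 (x 3) *
      fac 4 (x 4) * fac 5 (x 5) from by
        simp only [Fin.prod_univ_succ, Finset.univ_eq_empty, Finset.prod_empty]
        ring_nf
        rfl]
    simp only [fac, hq]
    norm_num [Fin.ext_iff]
  rw [hfac, ← hqpow]
  have hcomb := mul_le_mul (mul_le_mul (mul_le_mul (mul_le_mul c0 c1 (Real.exp_pos _).le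
    (by positivity)) c2 (Real.exp_pos _).le (by positivity)) c3 (Real.exp_pos _).le
    (by positivity)) c4 (Real.exp_pos _).le (by positivity)
  refine (mul_le_mul_of_nonneg_left hcomb (by linarith : 0 ≤ q)).trans (le_of_eq ?_)
  ring

lemma int_exp : Integrable (fun x : E6 => Real.exp (6 * u x)) := by
  have h1 : Integrable (fun y : Fin (2 * 3) → ℝ => ∏ i, fac i (y i)) :=
    Integrable.fintype_prod (fun i => int_fac i)
  have h2 : Integrable (fun x : E6 => ∏ i, fac i (x i)) :=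
    (PiLp.volume_preserving_ofLp (Fin (2 * 3))).integrable_comp_of_integrable h1
  refine h2.mono' (Real.continuous_exp.comp
    (smooth_u.continuous.const_mul 6)).aestronglyMeasurable ?_
  have hae : ∀ᵐ x : E6, ∀ i, x i ≠ 0 := by
    rw [ae_all_iff]
    intro i
    have h3 : ∀ᵐ y : Fin (2 * 3) → ℝ, y i ≠ 0 := by
      exact Measure.ae_eval_ne (fun _ => (volume : Measure ℝ)) i (0 : ℝ)
    exact (PiLp.volume_preserving_ofLp (Fin (2 * 3))).quasiMeasurePreserving.ae h3
  filter_upwards [hae] with x hx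
  rw [Real.norm_eq_abs, abs_of_pos (Real.exp_pos _)]
  exact exp_u_le hx

/-- There are `V` (continuous with compact support) and a smooth solution `u` of
`(-Δ)^3 u = V e^{6u}` in `ℝ⁶` with `e^{6u} ∈ L¹` which is not essentially bounded from above;
hence the assertion of Q1 is false. -/
theorem result :
    (∃ V u : EuclideanSpace ℝ (Fin (2 * 3)) → ℝ, Continuous V ∧ HasCompactSupport V ∧
      ContDiff ℝ ∞ u ∧ IsSolution 3 V u ∧ ¬ ∃ C : ℝ, ∀ᵐ x, u x ≤ C) ∧
    ¬ AlwaysBoundedAbove := by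
  have hsol : IsSolution 3 V u := by
    refine ⟨smooth_u.continuous.locallyIntegrable, ?_, ?_, ?_⟩
    · exact continuous_V.memLp_top_of_hasCompactSupport compact_V _
    · have := int_exp
      refine this.congr (Eventually.of_forall fun x => ?_)
      simp only
      congr 1
      push_cast
      ring
    · intro φ hφ hc
      rw [green_iter 3 smooth_u hφ hc]
      congr 1
      funext x
      rw [← V_mul]
      congr 2
      push_cast
      norm_num
  have hunb : ¬ ∃ C : ℝ, ∀ᵐ x, u x ≤ C := by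
    rintro ⟨C, hC⟩
    have hopen : IsOpen {x : E6 | C < u x} := isOpen_lt continuous_const smooth_u.continuous
    have hne : {x : E6 | C < u x}.Nonempty := by
      -- a point far away on the last axis
      obtain ⟨t, ht⟩ : ∃ t : ℝ, t = Real.exp (3 * |C| + 1) := ⟨_, rfl⟩
      have ht0 : 2 ≤ t := by
        have := Real.add_one_le_exp (3 * |C| + 1)
        rw [ht]; nlinarith [abs_nonneg C]
      refine ⟨EuclideanSpace.single 5 t, ?_⟩
      have e1 : P (EuclideanSpace.single 5 t) = 0 := by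
        rw [P_eq]
        simp
      have e2 : ‖(EuclideanSpace.single 5 t : E6)‖ ^ 2 = t ^ 2 := by
        simp
      have e3 : u (EuclideanSpace.single 5 t) = 1 / 6 * Real.log (t ^ 2) := by
        have : u (EuclideanSpace.single 5 t) =
          P (EuclideanSpace.single 5 t) + v (EuclideanSpace.single 5 t) := rfl
        rw [this, e1, zero_add]
        unfold v
        rw [e2, hh_log (by nlinarith)]
      rw [Set.mem_ofPred_eq, e3, Real.log_pow, ht, Real.log_exp]
      push_cast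
      nlinarith [le_abs_self C, abs_nonneg C]
    have hpos := hopen.measure_pos volume hne
    have hz : volume {x : E6 | C < u x} = 0 := by
      have := ae_iff.mp hC
      simpa [not_le] using this
    exact hpos.ne' hz
  refine ⟨⟨V, u, continuous_V, compact_V, smooth_u, hsol, hunb⟩, ?_⟩
  intro h
  exact hunb (h 3 (by norm_num) V u hsol)

end Pool.Agent.Results.MP_885c89_an.UnboundedAbove
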